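import Pool.Agent.helper25.EN.SpecV

set_option autoImplicit false

namespace TP.TW

open DP MeasureTheory Finset

theorem DR_prn (prn : PRN_stmt) (N : ℕ) (ε : Fin N → V) (hε : Function.Injective ε) (P : (Fin N → Bool) → Prop)
    [inst : DecidablePred P] : Pr {β : V → Bool | P (fun i => β (ε i))} = (#{x : Fin N → Bool | P x} : ℝ) / 2 ^ N := by
  have h : inst = fun a => Classical.propDecidable (P a) := Subsingleton.elim _ _
  subst h
  exact prn N ε hε P

instance DR_prob : IsProbabilityMeasure P1 := by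
  unfold P1
  infer_instance

theorem DR_mono {A B : Set (V → Bool)} (h : A ⊆ B) : Pr A ≤ Pr B := by
  unfold Pr
  exact measureReal_mono h (measure_ne_top _ _)

theorem DR_nonneg (A : Set (V → Bool)) : 0 ≤ Pr A := by
  unfold Pr
  exact measureReal_nonneg

theorem DR_le_one (A : Set (V → Bool)) : Pr A ≤ 1 := by
  unfold Pr
  exact measureReal_le_one

theorem DR_vro (S : ℕ → (V → Bool) → Finset V) (Ω : Finset V) (h : VRo S Ω) (R : ℕ) :
    VRo (fun i => S (min i (R + 1))) Ω ∧ ∀ i β, S (min i (R + 1)) β ⊆ S (R + 1) β := by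
  obtain ⟨h0, h1, h2, h3⟩ := h
  have hm : ∀ i j β, i ≤ j → S i β ⊆ S j β := by
    intro i j β hij
    induction j, hij using Nat.le_induction with
    | base => exact Subset.rfl
    | succ j _ ih => exact ih.trans (h1 j β)
  refine ⟨⟨?_, ?_, ?_, ?_⟩, ?_⟩
  · intro β
    simpa using h0 β
  · intro i β
    exact hm _ _ β (by omega)
  · intro i β
    exact h2 _ β
  · intro i β β' hb
    by_cases hi : i < R + 1
    · have e1 : min i (R + 1) = i := by omega
      have e2 : min (i + 1) (R + 1) = i + 1 := by omega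
      simp only [e1] at hb
      simp only [e2]
      exact h3 i β β' hb
    · have e1 : min i (R + 1) = R + 1 := by omega
      have e2 : min (i + 1) (R + 1) = R + 1 := by omega
      simp only [e1] at hb
      simp only [e2]
      exact h3 R β β' fun v hv => hb v (h1 R β hv)
  · intro i β
    exact hm _ _ β (by omega)

theorem DR_core (prn : PRN_stmt) (shp : SHP_stmt) (R : ℕ) (C : ℝ) (hC : 0 < C)
    (hent : ∀ (m : ℕ) (κ : Type) (T : Finset κ) (S : κ → ℕ → EN.Om m → Finset (Fin m)) (Λ : Finset (Fin m)) (z : Fin m) (N : ℝ), (∀ τ ∈ T, EN.Rounds (S τ)) →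
      (∀ i : ℕ, ∀ v ∈ insert z Λ, ∑ τ ∈ T, (#{x : EN.Om m | v ∈ S τ i x} : ℝ) / 2 ^ m ≤ N) →
      ∀ (Q : EN.Om m → ℝ) (L : ℝ), EN.Law Q → (∀ x y : EN.Om m, (∀ u ∈ Λ, x u = y u) → Q x = Q y) → 0 ≤ L → (∀ x, Q x ≤ Real.exp L / 2 ^ m) →
      ∀ v ∈ insert z Λ, ∑ τ ∈ T, ∑ x with v ∈ S τ (R + 1) x, Q x ≤ C * N * (L + Real.log (#Λ + 3)) ^ R)
    (Ω : Finset V) (S : ℕ → (V → Bool) → Finset V) (hV : VRo S Ω) (hS : ∀ i β, S i β ⊆ S (R + 1) β)
    (T U Λ : Finset V) (z : V) (E : Set (V → Bool)) (hE : CD E Λ)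
    (hU : ∀ v ∈ insert z Λ, ∀ τ ∈ T, (v.1 - τ.1, v.2 - τ.2) ∈ U) :
    ∑ τ ∈ T, Pr (E ∩ {β | (z.1 - τ.1, z.2 - τ.2) ∈ S (R + 1) (fun v => β (v.1 + τ.1, v.2 + τ.2))}) ≤
      C * Pr E * (Real.log (1 / Pr E) + Real.log (#T + #Λ + 3)) ^ R * ∑ v ∈ U, Pr {β | v ∈ S (R + 1) β} := by
  classical
  obtain ⟨h0, h1, h2, h3⟩ := hV
  have hdep : ∀ i (β β' : V → Bool), (∀ v ∈ Ω, β v = β' v) → S i β = S i β' := by
    intro i β β' h
    cases i with
    | zero => rw [h0, h0]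
    | succ i => exact h3 i β' β (fun v hv => h v (h2 i β' hv))
  rcases (DR_nonneg E).eq_or_lt with hp0 | hp
  · have hz : ∀ τ ∈ T, Pr (E ∩ {β | (z.1 - τ.1, z.2 - τ.2) ∈ S (R + 1) (fun v => β (v.1 + τ.1, v.2 + τ.2))}) = 0 := by
      intro τ _
      exact le_antisymm ((DR_mono Set.inter_subset_left).trans hp0.symm.le) (DR_nonneg _)
    rw [sum_eq_zero hz, ← hp0]
    simp
  obtain ⟨W, hW⟩ : ∃ W : Finset V, W = insert z Λ ∪ T.biUnion (fun τ => Ω.image fun v => (v.1 + τ.1, v.2 + τ.2)) := ⟨_, rfl⟩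
  obtain ⟨ε, hε⟩ : ∃ ε : Fin #W → V, ε = fun i => (W.equivFin.symm i).1 := ⟨_, rfl⟩
  have hinj : Function.Injective ε := by
    rw [hε]
    intro i j h
    exact W.equivFin.symm.injective (Subtype.ext h)
  obtain ⟨ex, hex⟩ : ∃ ex : (Fin #W → Bool) → V → Bool,
      ∀ x v (h : v ∈ W), ex x v = x (W.equivFin ⟨v, h⟩) :=
    ⟨fun x v => if h : v ∈ W then x (W.equivFin ⟨v, h⟩) else false, fun x v h => by simp only [h, dif_pos]⟩
  have hεv : ∀ v (h : v ∈ W), ε (W.equivFin ⟨v, h⟩) = v := by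
    intro v h
    rw [hε]
    simp
  have hzΛ : insert z Λ ⊆ W := by
    rw [hW]
    exact subset_union_left
  have hΛW : Λ ⊆ W := (subset_insert _ _).trans hzΛ
  have hzW : z ∈ W := hzΛ (mem_insert_self _ _)
  have hΩW : ∀ τ ∈ T, ∀ v ∈ Ω, (v.1 + τ.1, v.2 + τ.2) ∈ W := by
    intro τ hτ v hv
    rw [hW, mem_union, mem_biUnion]
    exact Or.inr ⟨τ, hτ, mem_image_of_mem (fun v : V => (v.1 + τ.1, v.2 + τ.2)) hv⟩
  have hexE : ∀ β : V → Bool, ex (fun i => β (ε i)) ∈ E ↔ β ∈ E := by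
    intro β
    exact hE _ _ fun v hv => by rw [hex _ v (hΛW hv), hεv]
  have hexS : ∀ τ ∈ T, ∀ i (β : V → Bool), S i (fun v => ex (fun k => β (ε k)) (v.1 + τ.1, v.2 + τ.2)) =
      S i (fun v => β (v.1 + τ.1, v.2 + τ.2)) := by
    intro τ hτ i β
    apply hdep
    intro v hv
    show ex (fun k => β (ε k)) (v.1 + τ.1, v.2 + τ.2) = β (v.1 + τ.1, v.2 + τ.2)
    rw [hex _ _ (hΩW τ hτ v hv), hεv]
  have hPE : Pr E = (#{x : Fin #W → Bool | ex x ∈ E} : ℝ) / 2 ^ #W := by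
    rw [← DR_prn prn _ ε hinj (fun x => ex x ∈ E)]
    congr 1
    ext β
    exact (hexE β).symm
  obtain ⟨S', hS'⟩ : ∃ S' : V → ℕ → EN.Om #W → Finset (Fin #W), ∀ τ i x j, j ∈ S' τ i x ↔
      ((ε j).1 - τ.1, (ε j).2 - τ.2) ∈ S i (fun v => ex x (v.1 + τ.1, v.2 + τ.2)) :=
    ⟨fun τ i x => univ.filter fun j => ((ε j).1 - τ.1, (ε j).2 - τ.2) ∈ S i (fun v => ex x (v.1 + τ.1, v.2 + τ.2)),
      fun τ i x j => by rw [mem_filter]; exact and_iff_right (mem_univ _)⟩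
  have hR : ∀ τ ∈ T, EN.Rounds (S' τ) := by
    intro τ hτ
    refine ⟨?_, ?_⟩
    · intro x
      ext j
      rw [hS', h0]
      simp
    · intro i x
      refine ⟨?_, ?_⟩
      · intro j hj
        rw [hS'] at hj ⊢
        exact h1 i _ hj
      · intro y hy
        have e : S (i + 1) (fun v => ex y (v.1 + τ.1, v.2 + τ.2)) = S (i + 1) (fun v => ex x (v.1 + τ.1, v.2 + τ.2)) := by
          apply h3
          intro v hv
          have hvW := hΩW τ hτ v (h2 i _ hv)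
          show ex y (v.1 + τ.1, v.2 + τ.2) = ex x (v.1 + τ.1, v.2 + τ.2)
          rw [hex y _ hvW, hex x _ hvW]
          apply hy
          rw [hS', hεv]
          have e3 : (v.1 + τ.1 - τ.1, v.2 + τ.2 - τ.2) = v := by
            rw [add_sub_cancel_right, add_sub_cancel_right]
          show (v.1 + τ.1 - τ.1, v.2 + τ.2 - τ.2) ∈ _
          rw [e3]
          exact hv
        ext j
        rw [hS', hS', e]
  have hcnt : ∀ τ ∈ T, ∀ i (v : Fin #W), (#{x : EN.Om #W | v ∈ S' τ i x} : ℝ) / 2 ^ #W ≤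
      Pr {β | ((ε v).1 - τ.1, (ε v).2 - τ.2) ∈ S (R + 1) β} := by
    intro τ hτ i v
    rw [← DR_prn prn _ ε hinj (fun x => v ∈ S' τ i x)]
    have e1 : {β : V → Bool | v ∈ S' τ i (fun k => β (ε k))} =
        {β | (fun u : V => β (u.1 + τ.1, u.2 + τ.2)) ∈ {γ : V → Bool | ((ε v).1 - τ.1, (ε v).2 - τ.2) ∈ S i γ}} := by
      ext β
      simp only [Set.mem_setOf_eq]
      rw [hS', hexS τ hτ i β]
    have e2 : CD {γ : V → Bool | ((ε v).1 - τ.1, (ε v).2 - τ.2) ∈ S i γ} Ω := by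
      intro b b' hb
      simp only [Set.mem_setOf_eq]
      rw [hdep i b b' hb]
    rw [e1, shp _ Ω e2 τ.1 τ.2]
    exact DR_mono fun γ hγ => hS i γ hγ
  have hN : ∀ i : ℕ, ∀ v ∈ insert (W.equivFin ⟨z, hzW⟩) (univ.filter fun j => ε j ∈ Λ),
      ∑ τ ∈ T, (#{x : EN.Om #W | v ∈ S' τ i x} : ℝ) / 2 ^ #W ≤ ∑ v ∈ U, Pr {β | v ∈ S (R + 1) β} := by
    intro i v hv
    have hv' : ε v ∈ insert z Λ := by
      rw [mem_insert] at hv ⊢
      rcases hv with rfl | hv
      · left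
        rw [hεv]
      · right
        exact (mem_filter.1 hv).2
    calc _ ≤ ∑ τ ∈ T, Pr {β | ((ε v).1 - τ.1, (ε v).2 - τ.2) ∈ S (R + 1) β} := sum_le_sum fun τ hτ => hcnt τ hτ i v
      _ = ∑ u ∈ T.image (fun τ : V => ((ε v).1 - τ.1, (ε v).2 - τ.2)), Pr {β | u ∈ S (R + 1) β} := by
        rw [sum_image]
        intro τ _ τ' _ h
        simp only [Prod.mk.injEq] at h
        exact Prod.ext (by omega) (by omega)
      _ ≤ _ := by
        apply sum_le_sum_of_subset_of_nonneg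
        · intro u hu
          rw [mem_image] at hu
          obtain ⟨τ, hτ, rfl⟩ := hu
          exact hU _ hv' τ hτ
        · intro u _ _
          exact DR_nonneg _
  obtain ⟨Q, hQ⟩ : ∃ Q : EN.Om #W → ℝ, ∀ x, Q x = if ex x ∈ E then 1 / (2 ^ #W * Pr E) else 0 := ⟨_, fun _ => rfl⟩
  have hQs : ∀ (P : EN.Om #W → Prop) [DecidablePred P], Pr E * ∑ x with P x, Q x = (#{x : EN.Om #W | P x ∧ ex x ∈ E} : ℝ) / 2 ^ #W := by
    intro P _
    simp_rw [hQ]
    rw [← sum_filter, filter_filter, sum_const, nsmul_eq_mul]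
    field_simp
  have hlaw : EN.Law Q := by
    refine ⟨?_, ?_⟩
    · intro x
      rw [hQ]
      split_ifs
      · positivity
      · exact le_rfl
    · simp_rw [hQ]
      rw [← sum_filter, sum_const, nsmul_eq_mul]
      have h5 : (#{x : Fin #W → Bool | ex x ∈ E} : ℝ) = Pr E * 2 ^ #W := by
        rw [hPE]
        field_simp
      rw [h5]
      field_simp
  have hl0 : 0 ≤ Real.log (1 / Pr E) := Real.log_nonneg (one_le_one_div hp (DR_le_one E))
  have hQdep : ∀ x y : EN.Om #W, (∀ u ∈ univ.filter (fun j => ε j ∈ Λ), x u = y u) → Q x = Q y := by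
    intro x y hxy
    have h6 : ex x ∈ E ↔ ex y ∈ E := by
      apply hE
      intro v hv
      rw [hex x v (hΛW hv), hex y v (hΛW hv)]
      apply hxy
      rw [mem_filter]
      refine ⟨mem_univ _, ?_⟩
      rw [hεv]
      exact hv
    rw [hQ, hQ]
    simp only [h6]
  have hQle : ∀ x, Q x ≤ Real.exp (Real.log (1 / Pr E)) / 2 ^ #W := by
    intro x
    rw [Real.exp_log (by positivity), hQ]
    split_ifs
    · apply le_of_eq
      field_simp
    · positivity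
  have key := hent #W V T S' (univ.filter fun j => ε j ∈ Λ) (W.equivFin ⟨z, hzW⟩) _ hR hN Q (Real.log (1 / Pr E)) hlaw hQdep hl0 hQle
    (W.equivFin ⟨z, hzW⟩) (mem_insert_self _ _)
  have hint : ∀ τ ∈ T, Pr (E ∩ {β | (z.1 - τ.1, z.2 - τ.2) ∈ S (R + 1) (fun v => β (v.1 + τ.1, v.2 + τ.2))}) =
      Pr E * ∑ x with W.equivFin ⟨z, hzW⟩ ∈ S' τ (R + 1) x, Q x := by
    intro τ hτ
    rw [hQs, ← DR_prn prn _ ε hinj (fun x => (W.equivFin ⟨z, hzW⟩ ∈ S' τ (R + 1) x) ∧ ex x ∈ E)]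
    congr 1
    ext β
    simp only [Set.mem_inter_iff, Set.mem_setOf_eq]
    rw [hS', hexE, hεv, hexS τ hτ, and_comm]
  rw [sum_congr rfl hint, ← mul_sum]
  refine (mul_le_mul_of_nonneg_left key hp.le).trans ?_
  have hcard : (#(univ.filter fun j => ε j ∈ Λ) : ℝ) ≤ #Λ := by
    exact_mod_cast card_le_card_of_injOn ε (fun j hj => (mem_filter.1 hj).2) hinj.injOn
  have hT0 : (0 : ℝ) ≤ #T := Nat.cast_nonneg _
  have hf0 : (0 : ℝ) ≤ #(univ.filter fun j => ε j ∈ Λ) := Nat.cast_nonneg _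
  have hlog : Real.log ((#(univ.filter fun j => ε j ∈ Λ) : ℝ) + 3) ≤ Real.log (#T + #Λ + 3) :=
    Real.log_le_log (by linarith) (by linarith)
  have hl1 : 0 ≤ Real.log ((#(univ.filter fun j => ε j ∈ Λ) : ℝ) + 3) := Real.log_nonneg (by linarith)
  have hpow : (Real.log (1 / Pr E) + Real.log ((#(univ.filter fun j => ε j ∈ Λ) : ℝ) + 3)) ^ R ≤
      (Real.log (1 / Pr E) + Real.log (#T + #Λ + 3)) ^ R := pow_le_pow_left₀ (by linarith) (by linarith) R
  have hN0 : 0 ≤ ∑ v ∈ U, Pr {β | v ∈ S (R + 1) β} := sum_nonneg fun _ _ => DR_nonneg _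
  calc _ ≤ Pr E * (C * (∑ v ∈ U, Pr {β | v ∈ S (R + 1) β}) * (Real.log (1 / Pr E) + Real.log (#T + #Λ + 3)) ^ R) :=
        mul_le_mul_of_nonneg_left (mul_le_mul_of_nonneg_left hpow (mul_nonneg hC.le hN0)) hp.le
    _ = _ := by ring

theorem DR (ent : EN.ENT_stmt) (prn : PRN_stmt) (shp : SHP_stmt) : DR_stmt := by
  intro R
  obtain ⟨C, hC, hent⟩ := ent R
  refine ⟨C, hC, ?_⟩
  intro Ω S hbr hV
  obtain ⟨hV', hS'⟩ := DR_vro S Ω hV R
  have eR : min (R + 1) (R + 1) = R + 1 := min_self _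
  refine ⟨hbr, fun β => hV.2.2.1 _ β, ⟨Ω, ?_⟩, fun v => DR_nonneg _, ?_, hC.le, ?_⟩
  · intro β β' h
    exact hV.2.2.2 R β' β (fun v hv => h v (hV.2.2.1 R β' hv))
  · intro v hv
    have e : {β : V → Bool | v ∈ S (R + 1) β} = ∅ := by
      ext β
      simp only [Set.mem_setOf_eq, Set.mem_empty_iff_false, iff_false]
      exact fun h => hv (hV.2.2.1 _ β h)
    show Pr {β | v ∈ S (R + 1) β} = 0
    rw [e]
    unfold Pr
    exact measureReal_empty
  · intro T U Λ z E hE hU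
    have h := DR_core prn shp R C hC hent Ω (fun i => S (min i (R + 1))) hV'
      (fun i β => by simp only [eR]; exact hS' i β) T U Λ z E hE hU
    simp only [eR] at h
    exact h

end TP.TW
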